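import Pool.Agent.Helper60.AO.Defs

/-!
# AO, block H8: the choice of `J`
-/

set_option autoImplicit false

namespace Pool.Agent.Helper78.AO

/-- the exponent of the gain -/
noncomputable def fJ (J : ℕ) (r d : ℝ) : ℝ := J * (1 + d) - (r + 3 - 2 * d) - ∑ m ∈ Finset.range (2 * J), max 0 (m * d - r)

theorem sum_zero {r d : ℝ} (hd : 0 < d) {n : ℕ} (h : ((n : ℝ) - 1) * d ≤ r) : ∑ m ∈ Finset.range n, max 0 ((m : ℝ) * d - r) = 0 := by
  refine Finset.sum_eq_zero fun m hm => ?_
  have h1 : m + 1 ≤ n := Finset.mem_range.1 hm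
  have h2 : (m : ℝ) ≤ (n : ℝ) - 1 := by
    have : ((m + 1 : ℕ) : ℝ) ≤ n := by exact_mod_cast h1
    push_cast at this
    linarith
  have h3 : (m : ℝ) * d ≤ ((n : ℝ) - 1) * d := mul_le_mul_of_nonneg_right h2 hd.le
  exact max_eq_left (by linarith)

theorem choose_J3 {r d : ℝ} (hr : 2 - 1 / 100000 ≤ r) (hd : 0 < d) (hd1 : d ≤ 1 / 2 + 1 / 100000) :
    ∃ J : ℕ, 3 ≤ J ∧ (J : ℝ) ≤ r + 6 ∧ (1 / 10000 ≤ fJ J r d ∨
      (3 / 10 ≤ d ∧ 1 / 10000 ≤ fJ J r d + (max 0 ((2 * (J : ℝ) - 1) * d - r) - max 0 ((2 * (J : ℝ) - 1) * d - r - 1 / 16)) ∧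
        1 / 10000 ≤ fJ J r d + (d - 3 / 16))) := by
  set N : ℕ := ⌊r / (2 * d)⌋₊ with hN
  have h2d : 0 < 2 * d := by linarith
  have hr0 : 0 ≤ r := by linarith
  have hlo : (N : ℝ) * (2 * d) ≤ r := by
    have := Nat.floor_le (div_nonneg hr0 h2d.le)
    rwa [← hN, le_div_iff₀ h2d] at this
  have hhi : r < ((N : ℝ) + 1) * (2 * d) := by
    have := Nat.lt_floor_add_one (r / (2 * d))
    rwa [← hN, div_lt_iff₀ h2d] at this
  clear_value N
  rcases Nat.lt_or_ge N 4 with h4 | h4
  · interval_cases N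
    · -- `N = 0`: impossible
      exfalso
      push_cast at hhi
      linarith
    · -- `N = 1`: `J = 3`
      push_cast at hlo hhi
      have e : fJ 3 r d = 3 * (1 + d) - (r + 3 - 2 * d) - ((4 * d - r) + (5 * d - r)) := by
        unfold fJ
        norm_num [Finset.sum_range_succ]
        rw [max_eq_left (by linarith : -r ≤ 0), max_eq_left (by linarith : d - r ≤ 0), max_eq_left (by linarith : 2 * d - r ≤ 0),
          max_eq_left (by linarith : 3 * d - r ≤ 0), max_eq_right (by linarith : 0 ≤ 4 * d - r), max_eq_right (by linarith : 0 ≤ 5 * d - r)]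
        ring
      refine ⟨3, le_rfl, by push_cast; linarith, Or.inr ⟨by linarith, ?_, ?_⟩⟩
      · rw [e]
        push_cast
        rw [max_eq_right (by linarith : 0 ≤ (2 * (3 : ℝ) - 1) * d - r), max_eq_right (by linarith : 0 ≤ (2 * (3 : ℝ) - 1) * d - r - 1 / 16)]
        linarith
      · rw [e]
        linarith
    · -- `N = 2`
      push_cast at hlo hhi
      rcases le_or_gt (r - 4 * d) (d - 1 / 128) with h5 | h5
      · -- `J = 3`
        have e : fJ 3 r d = 3 * (1 + d) - (r + 3 - 2 * d) - (5 * d - r) := by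
          unfold fJ
          norm_num [Finset.sum_range_succ]
          rw [max_eq_left (by linarith : -r ≤ 0), max_eq_left (by linarith : d - r ≤ 0), max_eq_left (by linarith : 2 * d - r ≤ 0),
            max_eq_left (by linarith : 3 * d - r ≤ 0), max_eq_left (by linarith : 4 * d - r ≤ 0), max_eq_right (by linarith : 0 ≤ 5 * d - r)]
          ring
        refine ⟨3, le_rfl, by push_cast; linarith, Or.inr ⟨by linarith, ?_, ?_⟩⟩
        · rw [e]
          push_cast
          rw [max_eq_right (by linarith : 0 ≤ (2 * (3 : ℝ) - 1) * d - r)]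
          rcases max_cases 0 ((2 * (3 : ℝ) - 1) * d - r - 1 / 16) with ⟨h6, h7⟩ | ⟨h6, h7⟩ <;> rw [h6] <;> linarith
        · rw [e]
          linarith
      · -- `J = 4`
        have e : fJ 4 r d = 4 * (1 + d) - (r + 3 - 2 * d) - (max 0 (5 * d - r) + (6 * d - r) + (7 * d - r)) := by
          unfold fJ
          norm_num [Finset.sum_range_succ]
          rw [max_eq_left (by linarith : -r ≤ 0), max_eq_left (by linarith : d - r ≤ 0), max_eq_left (by linarith : 2 * d - r ≤ 0),
            max_eq_left (by linarith : 3 * d - r ≤ 0), max_eq_left (by linarith : 4 * d - r ≤ 0), max_eq_right (by linarith : 0 ≤ 6 * d - r),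
            max_eq_right (by linarith : 0 ≤ 7 * d - r)]
          ring
        have e5 : max 0 (5 * d - r) ≤ 1 / 128 := max_le (by norm_num) (by linarith)
        refine ⟨4, by norm_num, by push_cast; linarith, Or.inr ⟨by linarith, ?_, ?_⟩⟩
        · rw [e]
          push_cast
          rw [max_eq_right (by linarith : 0 ≤ (2 * (4 : ℝ) - 1) * d - r), max_eq_right (by linarith : 0 ≤ (2 * (4 : ℝ) - 1) * d - r - 1 / 16)]
          rcases max_cases 0 (5 * d - r) with ⟨h6, h7⟩ | ⟨h6, h7⟩ <;> rw [h6] <;> linarith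
        · rw [e]
          rcases max_cases 0 (5 * d - r) with ⟨h6, h7⟩ | ⟨h6, h7⟩ <;> rw [h6] <;> linarith
    · -- `N = 3`
      push_cast at hlo hhi
      rcases le_or_gt (7 * d) r with h5 | h5
      · -- `J = 5`
        have e : fJ 5 r d = 5 * (1 + d) - (r + 3 - 2 * d) - ((8 * d - r) + (9 * d - r)) := by
          unfold fJ
          norm_num [Finset.sum_range_succ]
          rw [max_eq_left (by linarith : -r ≤ 0), max_eq_left (by linarith : d - r ≤ 0), max_eq_left (by linarith : 2 * d - r ≤ 0),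
            max_eq_left (by linarith : 3 * d - r ≤ 0), max_eq_left (by linarith : 4 * d - r ≤ 0), max_eq_left (by linarith : 5 * d - r ≤ 0),
            max_eq_left (by linarith : 6 * d - r ≤ 0), max_eq_left (by linarith : 7 * d - r ≤ 0), max_eq_right (by linarith : 0 ≤ 8 * d - r),
            max_eq_right (by linarith : 0 ≤ 9 * d - r)]
          ring
        refine ⟨5, by norm_num, by push_cast; linarith, Or.inl ?_⟩
        rw [e]
        linarith
      · -- `J = 4`
        have e : fJ 4 r d = 4 * (1 + d) - (r + 3 - 2 * d) - (7 * d - r) := by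
          unfold fJ
          norm_num [Finset.sum_range_succ]
          rw [max_eq_left (by linarith : -r ≤ 0), max_eq_left (by linarith : d - r ≤ 0), max_eq_left (by linarith : 2 * d - r ≤ 0),
            max_eq_left (by linarith : 3 * d - r ≤ 0), max_eq_left (by linarith : 4 * d - r ≤ 0), max_eq_left (by linarith : 5 * d - r ≤ 0),
            max_eq_left (by linarith : 6 * d - r ≤ 0), max_eq_right (by linarith : 0 ≤ 7 * d - r)]
          ring
        refine ⟨4, by norm_num, by push_cast; linarith, Or.inl ?_⟩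
        rw [e]
        linarith
  · -- `N ≥ 4`
    have h4' : (4 : ℝ) ≤ N := by exact_mod_cast h4
    rcases le_or_gt ((N : ℝ) + 1) (r + 6) with h5 | h5
    · -- `J = N + 1`
      have e : fJ (N + 1) r d = ((N : ℝ) + 1) * (1 + d) - (r + 3 - 2 * d) - max 0 ((2 * (N : ℝ) + 1) * d - r) := by
        unfold fJ
        rw [show 2 * (N + 1) = (2 * N + 1) + 1 by ring, Finset.sum_range_succ, sum_zero hd (by push_cast; linarith)]
        push_cast
        ring
      refine ⟨N + 1, by omega, by push_cast; linarith, Or.inl ?_⟩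
      rw [e]
      have h6 : max 0 ((2 * (N : ℝ) + 1) * d - r) ≤ max 0 ((2 * (N : ℝ) + 1) * d - r) := le_rfl
      have h7 : 0 ≤ ((N : ℝ) - 4) * (1 - d) := mul_nonneg (by linarith) (by linarith)
      rcases max_cases 0 ((2 * (N : ℝ) + 1) * d - r) with ⟨h8, h9⟩ | ⟨h8, h9⟩ <;> rw [h8] <;> nlinarith
    · -- `J = ⌊r + 6⌋`
      have h6 : (⌊r + 6⌋₊ : ℝ) ≤ r + 6 := Nat.floor_le (by linarith)
      have h7 : r + 6 < (⌊r + 6⌋₊ : ℝ) + 1 := Nat.lt_floor_add_one _
      set J : ℕ := ⌊r + 6⌋₊ with hJ
      have h8 : (J : ℝ) < (N : ℝ) + 1 := by linarith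
      have h9 : J ≤ N := by
        have : J < N + 1 := by exact_mod_cast h8
        omega
      have h9' : (J : ℝ) ≤ N := by exact_mod_cast h9
      have h10 : 3 ≤ J := by
        have : (2 : ℝ) < (J : ℝ) := by linarith
        have : 2 < J := by exact_mod_cast this
        omega
      have e : fJ J r d = (J : ℝ) * (1 + d) - (r + 3 - 2 * d) := by
        unfold fJ
        rw [sum_zero hd (n := 2 * J), sub_zero]
        push_cast
        have h11 : (J : ℝ) * (2 * d) ≤ (N : ℝ) * (2 * d) := mul_le_mul_of_nonneg_right h9' h2d.le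
        nlinarith
      refine ⟨J, h10, h6, Or.inl ?_⟩
      rw [e]
      have h12 : 0 ≤ (J : ℝ) * d := by positivity
      nlinarith

end Pool.Agent.Helper78.AO
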